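import Mathlib

set_option autoImplicit false

namespace Pool.Agent.Results.MP_f3891b_al.Yes

/-- Subracks of the conjugation rack of `G`. -/
def Sub (G : Type) [Group G] : Set (Set G) := {S | ∀ x ∈ S, ∀ y ∈ S, x * y * x⁻¹ ∈ S}

abbrev R := ZMod 7 × ZMod 13

def e (s : Bool) (i : ZMod 3) : R := (2 ^ i.val, (if s then 3 else 9) ^ i.val)

lemma ea : ∀ s i j, e s (i + j) = e s i * e s j := by decide
lemma e0 : ∀ s, e s 0 = 1 := by decide

@[ext] structure G (s : Bool) where
  v : R
  i : ZMod 3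
deriving DecidableEq, Fintype

variable {s : Bool}

instance : Group (G s) where
  mul x y := ⟨x.v + e s x.i * y.v, x.i + y.i⟩
  one := ⟨0, 0⟩
  inv x := ⟨-(e s (-x.i) * x.v), -x.i⟩
  mul_assoc x y z := G.ext (show x.v + e s x.i * y.v + e s (x.i + y.i) * z.v =
    x.v + e s x.i * (y.v + e s y.i * z.v) by rw [ea]; ring) (add_assoc _ _ _)
  one_mul x := G.ext (show 0 + e s 0 * x.v = x.v by rw [e0]; ring) (zero_add _)
  mul_one x := G.ext (show x.v + e s x.i * 0 = x.v by ring) (add_zero _)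
  inv_mul_cancel x := G.ext (neg_add_cancel _) (neg_add_cancel _)

lemma cj (x y : G s) : x * y * x⁻¹ = ⟨(1 - e s y.i) * x.v + e s x.i * y.v, y.i⟩ := by
  refine G.ext (show x.v + e s x.i * y.v + e s (x.i + y.i) * -(e s (-x.i) * x.v) = _ from ?_)
    (show x.i + y.i + -x.i = y.i by ring)
  have : e s (x.i + y.i) * e s (-x.i) = e s y.i := by rw [← ea]; congr 1; ring
  linear_combination (-x.v) * this

lemma pw (w : R) (n : ℕ) : (⟨w, 0⟩ : G s) ^ n = ⟨n * w, 0⟩ := by
  induction n with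
  | zero => exact G.ext (show 0 = _ by simp) rfl
  | succ n h =>
    rw [pow_succ, h]
    exact G.ext (show n * w + e s 0 * w = _ by rw [e0]; push_cast; ring) (add_zero _)

lemma cen : ∀ s, ∀ g : G s, g * ⟨1, 0⟩ * g⁻¹ = ⟨1, 0⟩ → g * ⟨0, 1⟩ * g⁻¹ = ⟨0, 1⟩ → g = 1 := by
  simp only [cj]; decide +kernel

def m (s : Bool) (j : ZMod 3) : R := (1, if j = 0 then 0 else if s = (j = 1) then 4 else 10)

def ph (v : R) : R := (v.1, v.2 ^ 11)

def f (s : Bool) (x : G s) : G (!s) := ⟨if x.i = 0 then ph x.v else m s x.i * x.v, x.i⟩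

lemma A : ∀ s i v, ph (e s i * v) = e (!s) i * ph v := by decide +kernel
lemma B : ∀ s j u, j ≠ 0 → ∃ n < 91, m s j * ((1 - e s j) * u) = (1 - e (!s) j) * ((n : ℕ) * ph u) := by
  decide +kernel
lemma C : ∀ s i j, i ≠ 0 → j ≠ 0 → ∃ n < 91, m s j * (1 - e s j) =
    (1 - e (!s) j) * ((n : ℕ) * ((1 - e (!s) j) * m s i)) ∧
    e s i - 1 = (1 - e (!s) j) * ((n : ℕ) * (e (!s) i - 1)) := by
  decide +kernel

lemma key (s : Bool) (S : Set (G (!s))) (h : S ∈ Sub _) : f s ⁻¹' S ∈ Sub _ := by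
  intro x hx y hy
  have cl : ∀ g ∈ Subgroup.closure S, ∀ z ∈ S, g * z * g⁻¹ ∈ S := fun g hg => by
    rw [← Subgroup.mem_toSubmonoid, Subgroup.closure_toSubmonoid_of_finite] at hg
    induction hg using Submonoid.closure_induction with
    | mem g hg => exact h g hg
    | one => simp
    | mul a b _ _ ha hb => exact fun z hz => by simpa [mul_assoc] using ha _ (hb z hz)
  have X : f s x ∈ Subgroup.closure S := Subgroup.subset_closure hx
  have Y : f s y ∈ Subgroup.closure S := Subgroup.subset_closure hy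
  change f s _ ∈ S
  by_cases j : y.i = 0
  · convert h _ hx _ hy using 1
    simp only [cj, f, j, e0, sub_self, zero_mul, zero_add, if_true, A]
  by_cases i : x.i = 0
  · obtain ⟨n, -, H⟩ := B s _ x.v j
    convert cl _ (pow_mem X n) _ hy using 1
    rw [cj (f s x ^ n)]
    simp only [cj, f, j, i, e0, if_true, if_false, pw, mul_add, H, one_mul]
  · obtain ⟨n, -, H, H'⟩ := C s _ _ i j
    have : f s x * f s y * (f s x)⁻¹ * (f s y)⁻¹ = ⟨(1 - e (!s) y.i) * (m s x.i * x.v) +
        (e (!s) x.i - 1) * (m s y.i * y.v), 0⟩ := by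
      rw [mul_inv_eq_iff_eq_mul, cj]
      exact G.ext (show _ = _ + e (!s) 0 * _ by simp only [f, i, j, if_false, e0]; ring)
        (zero_add _).symm
    convert cl _ (pow_mem (mul_mem (mul_mem (mul_mem X Y) (inv_mem X)) (inv_mem Y)) n) _ hy using 1
    rw [this, pw, cj, cj]
    simp only [f, j, if_false, e0]
    congr 1
    linear_combination x.v * H + m s y.i * y.v * H'

lemma ff : ∀ x, f false (f true x) = x := by decide +kernel
lemma ff' : ∀ x, f true (f false x) = x := by decide +kernel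

theorem result : ∃ (G H : Type) (_ : Group G) (_ : Group H), Finite G ∧ Finite H ∧
    Nonempty (Sub G ≃o Sub H) ∧
    ¬ ∃ φ : G ≃ H, ∀ x y, φ (x * y * x⁻¹) = φ x * φ y * (φ x)⁻¹ := by
  refine ⟨G true, G false, inferInstance, inferInstance, inferInstance, inferInstance,
    ⟨⟨⟨fun S => ⟨_, key false S.1 S.2⟩, fun S => ⟨_, key true S.1 S.2⟩, fun S => ?_, fun S => ?_⟩,
      fun {S T} => ⟨fun h x hx => ?_, fun h x hx => h hx⟩⟩⟩, fun ⟨φ, h⟩ => ?_⟩
  · ext x; simp [ff]
  · ext x; simp [ff']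
  · have := @h (f true x) (by simpa [ff] using hx)
    simpa [ff] using this
  let K : Subgroup (G true × G false) :=
    { carrier := {p | ∀ y, φ (p.1 * y * p.1⁻¹) = p.2 * φ y * p.2⁻¹}
      one_mem' := by simp
      mul_mem' := fun {p q} a b y => by
        have := a (q.1 * y * q.1⁻¹)
        rw [b] at this
        simpa [mul_assoc] using this
      inv_mem' := fun {p} a y => by
        have := a (p.1⁻¹ * y * p.1)
        simp only [mul_assoc, mul_inv_cancel_left, mul_inv_cancel, mul_one] at this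
        simp [this, mul_assoc] }
  have k : ∀ p ∈ K, p.1 = 1 ↔ p.2 = 1 := fun p hp => ⟨fun a => by
    have : ∀ y, p.2 * y * p.2⁻¹ = y := φ.surjective.forall.2 fun y => by rw [← hp, a]; simp
    exact cen _ _ (this _) (this _), fun a => by
    have : ∀ y, p.1 * y * p.1⁻¹ = y := fun y => φ.injective (by rw [hp, a]; simp)
    exact cen _ _ (this _) (this _)⟩
  have X : (⟨0, 1⟩, φ ⟨0, 1⟩) ∈ K := h _
  have T : (⟨1, 0⟩, φ ⟨1, 0⟩) ∈ K := h _
  generalize φ ⟨0, 1⟩ = x at X
  generalize φ ⟨1, 0⟩ = t at T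
  have a := k _ (pow_mem T 91)
  have b := k _ (pow_mem T 7)
  have c := k _ (pow_mem T 13)
  have d := k _ (mul_mem (mul_mem (mul_mem X T) (inv_mem X)) (inv_mem (pow_mem T 16)))
  simp only [Prod.pow_snd, Prod.snd_mul, Prod.snd_inv, Prod.pow_fst, Prod.fst_mul, Prod.fst_inv,
    mul_inv_eq_one] at a b c d
  replace a := a.1 (by decide +kernel)
  replace b := mt b.2 (by decide +kernel)
  replace c := mt c.2 (by decide +kernel)
  replace d := d.1 (by decide +kernel)
  clear T X
  obtain ⟨w, i⟩ := t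
  obtain rfl : i = 0 := by clear b c d; revert w i; decide +kernel
  simp only [cj, pw, e0, sub_self, zero_mul, zero_add] at b c d
  generalize x.i = j at d
  clear a
  revert w j
  decide +kernel

end Pool.Agent.Results.MP_f3891b_al.Yes
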